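import Pool.Agent.H61.NS.Mono

/-!
# The conjugating homeomorphisms: averages along the trajectories

Used for MP_b11560_gt.
-/

set_option autoImplicit false

open Filter Topology Metric

namespace Pool.Agent.H61.NS

variable {G X : Type*} [MetricSpace X] [Group G] [MulAction G X] {φ : ℝ → X → X} {u : X → ℝ}

/-- the average of `u` along the first `n` iterates -/
noncomputable def avg {X : Type*} (F : X → X) (u : X → ℝ) (n : ℕ) (x : X) : ℝ :=
  (∑ k ∈ Finset.range n, u (F^[k] x)) / n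

/-- interpolation between `u` and the average -/
noncomputable def Ut {X : Type*} (F : X → X) (u : X → ℝ) (n : ℕ) (θ : unitInterval) (x : X) : ℝ :=
  (1 - (θ : ℝ)) * u x + (θ : ℝ) * avg F u n x

theorem Dat.orb_iter (hd : Dat G φ u) {F : X → X} (hFo : ∀ x, Orb φ x (F x)) (k : ℕ) (x : X) :
    Orb φ x (F^[k] x) := by
  induction k with
  | zero => exact hd.orb_refl x
  | succ k ih =>
    rw [Function.iterate_succ_apply']
    exact hd.orb_trans ih (hFo _)

omit [MetricSpace X] in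
theorem smul_iter {F : X → X} (hFG : ∀ (g : G) (x : X), F (g • x) = g • F x) (k : ℕ) (g : G)
    (x : X) : F^[k] (g • x) = g • F^[k] x := by
  induction k with
  | zero => rfl
  | succ k ih => rw [Function.iterate_succ_apply', Function.iterate_succ_apply', ih, hFG]

theorem Dat.mon_iter (hd : Dat G φ u) {F : X → X} (hFo : ∀ x, Orb φ x (F x))
    (hFm : ∀ x, x ∉ Zer φ → StrictMono (fun t => u (F (φ t x)))) (k : ℕ) (x : X)
    (hx : x ∉ Zer φ) : StrictMono (fun t => u (F^[k] (φ t x))) := by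
  induction k with
  | zero => exact hd.mono x hx
  | succ k ih =>
    intro s t hst
    have h1 := ih hst
    simp only [Function.iterate_succ_apply'] at h1 ⊢
    obtain ⟨a, ha⟩ := hd.orb_trans ⟨s, rfl⟩ (hd.orb_iter hFo k (φ s x))
    obtain ⟨b, hb⟩ := hd.orb_trans ⟨t, rfl⟩ (hd.orb_iter hFo k (φ t x))
    rw [ha, hb] at h1 ⊢
    exact hFm x hx ((hd.mono x hx).lt_iff_lt.1 h1)

theorem Dat.mon_iter_le (hd : Dat G φ u) {F : X → X} (hFo : ∀ x, Orb φ x (F x))
    (hFm : ∀ x, x ∉ Zer φ → StrictMono (fun t => u (F (φ t x)))) (k : ℕ) {x y : X}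
    (h : Orb φ x y) (hu : u x ≤ u y) : u (F^[k] x) ≤ u (F^[k] y) := by
  by_cases hx : x ∈ Zer φ
  · rw [orb_zer h hx]
  · obtain ⟨t, rfl⟩ := h
    have h1 : u (φ 0 x) ≤ u (φ t x) := by rwa [hd.zero]
    have h2 : (0 : ℝ) ≤ t := (hd.mono x hx).le_iff_le.1 h1
    have h3 := (hd.mon_iter hFo hFm k x hx).monotone h2
    simp only [hd.zero] at h3
    exact h3

theorem Dat.avg_cont (hd : Dat G φ u) {F : X → X} (hF : Continuous F) (n : ℕ) :
    Continuous (avg F u n) := by
  unfold avg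
  exact (continuous_finsetSum _ fun k _ => hd.ucont.comp (hF.iterate k)).div_const _

theorem Dat.Ut_cont (hd : Dat G φ u) {F : X → X} (hF : Continuous F) (n : ℕ) :
    Continuous (fun p : unitInterval × X => Ut F u n p.1 p.2) := by
  unfold Ut
  have h1 : Continuous (fun p : unitInterval × X => ((p.1 : unitInterval) : ℝ)) :=
    continuous_subtype_val.comp continuous_fst
  exact ((continuous_const.sub h1).mul (hd.ucont.comp continuous_snd)).add
    (h1.mul ((hd.avg_cont hF n).comp continuous_snd))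

theorem Dat.avg_mono (hd : Dat G φ u) {F : X → X} (hFo : ∀ x, Orb φ x (F x))
    (hFm : ∀ x, x ∉ Zer φ → StrictMono (fun t => u (F (φ t x)))) {n : ℕ} (hn : 0 < n) (x : X)
    (hx : x ∉ Zer φ) : StrictMono (fun t => avg F u n (φ t x)) := by
  intro s t hst
  unfold avg
  have hn' : (0 : ℝ) < n := by exact_mod_cast hn
  refine div_lt_div_of_pos_right ?_ hn'
  exact Finset.sum_lt_sum_of_nonempty ⟨0, Finset.mem_range.2 hn⟩
    fun k _ => hd.mon_iter hFo hFm k x hx hst

theorem Dat.Ut_mono (hd : Dat G φ u) {F : X → X} (hFo : ∀ x, Orb φ x (F x))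
    (hFm : ∀ x, x ∉ Zer φ → StrictMono (fun t => u (F (φ t x)))) {n : ℕ} (hn : 0 < n)
    (θ : unitInterval) (x : X)
    (hx : x ∉ Zer φ) : StrictMono (fun t => Ut F u n θ (φ t x)) := by
  intro s t hst
  have h1 := hd.mono x hx hst
  have h2 := hd.avg_mono hFo hFm hn x hx hst
  simp only at h1 h2
  simp only [Ut]
  have h3 : (0 : ℝ) ≤ θ := θ.2.1
  have h4 : (θ : ℝ) ≤ 1 := θ.2.2
  rcases eq_or_lt_of_le h3 with h5 | h5
  · rw [← h5]
    linarith
  · have h6 : (θ : ℝ) * avg F u n (φ s x) < θ * avg F u n (φ t x) := mul_lt_mul_of_pos_left h2 h5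
    have h7 : (1 - (θ : ℝ)) * u (φ s x) ≤ (1 - θ) * u (φ t x) :=
      mul_le_mul_of_nonneg_left h1.le (by linarith)
    linarith

omit [MetricSpace X] in
theorem le_Ut {F : X → X} {n : ℕ} (hn : 0 < n) (θ : unitInterval) {x : X} {a : ℝ}
    (h : ∀ k ∈ Finset.range n, a ≤ u (F^[k] x)) : a ≤ Ut F u n θ x := by
  have hn' : (0 : ℝ) < n := by exact_mod_cast hn
  have h1 : a ≤ avg F u n x := by
    unfold avg
    rw [le_div_iff₀ hn']
    have := Finset.card_nsmul_le_sum (Finset.range n) (fun k => u (F^[k] x)) a h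
    rw [Finset.card_range, nsmul_eq_mul] at this
    linarith
  have h2 : a ≤ u x := h 0 (Finset.mem_range.2 hn)
  have h3 : (0 : ℝ) ≤ θ := θ.2.1
  have h4 : (θ : ℝ) ≤ 1 := θ.2.2
  unfold Ut
  nlinarith [mul_le_mul_of_nonneg_left h1 h3, mul_le_mul_of_nonneg_left h2 (sub_nonneg.2 h4)]

omit [MetricSpace X] in
theorem Ut_le {F : X → X} {n : ℕ} (hn : 0 < n) (θ : unitInterval) {x : X} {a : ℝ}
    (h : ∀ k ∈ Finset.range n, u (F^[k] x) ≤ a) : Ut F u n θ x ≤ a := by
  have hn' : (0 : ℝ) < n := by exact_mod_cast hn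
  have h1 : avg F u n x ≤ a := by
    unfold avg
    rw [div_le_iff₀ hn']
    have := Finset.sum_le_card_nsmul (Finset.range n) (fun k => u (F^[k] x)) a h
    rw [Finset.card_range, nsmul_eq_mul] at this
    linarith
  have h2 : u x ≤ a := h 0 (Finset.mem_range.2 hn)
  have h3 : (0 : ℝ) ≤ θ := θ.2.1
  have h4 : (θ : ℝ) ≤ 1 := θ.2.2
  unfold Ut
  nlinarith [mul_le_mul_of_nonneg_left h1 h3, mul_le_mul_of_nonneg_left h2 (sub_nonneg.2 h4)]

theorem Dat.Ut_smul (hd : Dat G φ u) {F : X → X} (hFG : ∀ (g : G) (x : X), F (g • x) = g • F x)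
    {n : ℕ} (hn : 0 < n) (g : G) : ∃ c : ℝ, (∀ x, u (g • x) = u x + c) ∧
      ∀ (θ : unitInterval) (x : X), Ut F u n θ (g • x) = Ut F u n θ x + c := by
  obtain ⟨c, hc⟩ := hd.uequi g
  refine ⟨c, hc, fun θ x => ?_⟩
  have hn' : (n : ℝ) ≠ 0 := by exact_mod_cast hn.ne'
  have h1 : avg F u n (g • x) = avg F u n x + c := by
    unfold avg
    have : ∑ k ∈ Finset.range n, u (F^[k] (g • x)) = ∑ k ∈ Finset.range n, u (F^[k] x) + n * c := by
      have e : ∀ k ∈ Finset.range n, u (F^[k] (g • x)) = u (F^[k] x) + c := fun k _ => by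
        rw [smul_iter hFG, hc]
      rw [Finset.sum_congr rfl e, Finset.sum_add_distrib, Finset.sum_const, Finset.card_range,
        nsmul_eq_mul]
    rw [this]
    field_simp
  unfold Ut
  rw [h1, hc]
  ring

/-- The conjugating homeomorphism, with its isotopy to the identity. -/
theorem Dat.conj (hd : Dat G φ u) (hL : LemL φ u) {F : X ≃ₜ X}
    (hFG : ∀ (g : G) (x : X), F (g • x) = g • F x)
    (hFo : ∀ x, Orb φ x (F x))
    (hFm : ∀ x, x ∉ Zer φ → StrictMono (fun t => u (F (φ t x)))) {n : ℕ} (hn : 0 < n) :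
    ∃ H : unitInterval → (X ≃ₜ X), Continuous (fun p : unitInterval × X => H p.1 p.2) ∧
      (∀ s (g : G) x, H s (g • x) = g • H s x) ∧ (∀ x, H 0 x = x) ∧
      (∀ x, Orb φ x (H 1 x)) ∧ ∀ x, u (H 1 x) = avg F u n x := by
  classical
  have hFs : ∀ x, Orb φ x (F.symm x) := by
    intro x
    have := hFo (F.symm x)
    rw [F.apply_symm_apply] at this
    exact hd.orb_symm this
  have hne : (Finset.range n).Nonempty := ⟨0, Finset.mem_range.2 hn⟩
  have hUc := hd.Ut_cont F.continuous n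
  have huc : Continuous (fun p : unitInterval × X => u p.2) := hd.ucont.comp continuous_snd
  obtain ⟨H, hHc, hHo, hHe⟩ := hd.solve hL (Θ := unitInterval) (P := fun _ x => u x)
    (Q := fun θ x => Ut F u n θ x) huc hUc (fun _ x hx => hd.mono x hx)
    (m := n) (b := fun i => (F : X → X)^[(i : ℕ)]) (fun i => F.continuous.iterate i)
    (fun i x => hd.orb_iter hFo i x)
    (fun θ x => by
      obtain ⟨i, hi, hi2⟩ := Finset.exists_min_image (Finset.range n) (fun k => u (F^[k] x)) hne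
      exact ⟨⟨i, Finset.mem_range.1 hi⟩, le_Ut hn θ hi2⟩)
    (fun θ x => by
      obtain ⟨i, hi, hi2⟩ := Finset.exists_max_image (Finset.range n) (fun k => u (F^[k] x)) hne
      exact ⟨⟨i, Finset.mem_range.1 hi⟩, Ut_le hn θ hi2⟩)
  have hcancel : ∀ (k : ℕ) (x : X), F^[k] ((F.symm : X → X)^[k] x) = x := by
    intro k
    induction k with
    | zero => intro x; rfl
    | succ k ih =>
      intro x
      rw [Function.iterate_succ_apply, Function.iterate_succ_apply', F.apply_symm_apply]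
      exact ih x
  obtain ⟨H', hHc', hHo', hHe'⟩ := hd.solve hL (Θ := unitInterval)
    (P := fun θ x => Ut F u n θ x) (Q := fun _ x => u x) hUc huc
    (fun θ x hx => hd.Ut_mono hFo hFm hn θ x hx)
    (m := n) (b := fun i => (F.symm : X → X)^[(i : ℕ)]) (fun i => F.symm.continuous.iterate i)
    (fun i x => hd.orb_iter hFs i x)
    (fun θ x => by
      obtain ⟨i, hi, hi2⟩ := Finset.exists_min_image (Finset.range n)
        (fun k => u ((F.symm : X → X)^[k] x)) hne
      refine ⟨⟨i, Finset.mem_range.1 hi⟩, Ut_le hn θ fun k hk => ?_⟩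
      have h1 := hi2 k hk
      have h2 := hd.mon_iter_le hFo hFm k
        (hd.orb_trans (hd.orb_symm (hd.orb_iter hFs i x)) (hd.orb_iter hFs k x)) h1
      rw [hcancel] at h2
      exact h2)
    (fun θ x => by
      obtain ⟨i, hi, hi2⟩ := Finset.exists_max_image (Finset.range n)
        (fun k => u ((F.symm : X → X)^[k] x)) hne
      refine ⟨⟨i, Finset.mem_range.1 hi⟩, le_Ut hn θ fun k hk => ?_⟩
      have h1 := hi2 k hk
      have h2 := hd.mon_iter_le hFo hFm k
        (hd.orb_trans (hd.orb_symm (hd.orb_iter hFs k x)) (hd.orb_iter hFs i x)) h1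
      rw [hcancel] at h2
      exact h2)
  -- injectivity of `Ut θ` on trajectories
  have hUinj : ∀ θ x y, Orb φ x y → Ut F u n θ x = Ut F u n θ y → x = y := by
    intro θ x y hxy he
    by_cases hx : x ∈ Zer φ
    · exact (orb_zer hxy hx).symm
    · obtain ⟨t, rfl⟩ := hxy
      have h1 : Ut F u n θ (φ 0 x) = Ut F u n θ (φ t x) := by rwa [hd.zero]
      have h2 := (hd.Ut_mono hFo hFm hn θ x hx).injective h1
      rw [← h2, hd.zero]
  have hleft : ∀ θ x, H' θ (H θ x) = x := by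
    intro θ x
    refine (hUinj θ _ _ (hd.orb_trans (hHo θ x) (hHo' θ (H θ x))) ?_).symm
    rw [hHe', hHe]
  have hright : ∀ θ x, H θ (H' θ x) = x := by
    intro θ x
    refine (hd.u_eq (hd.orb_trans (hHo' θ x) (hHo θ (H' θ x))) ?_).symm
    rw [hHe, hHe']
  refine ⟨fun θ =>
    { toFun := H θ
      invFun := H' θ
      left_inv := hleft θ
      right_inv := hright θ
      continuous_toFun := hHc.comp (Continuous.prodMk_right θ)
      continuous_invFun := hHc'.comp (Continuous.prodMk_right θ) }, hHc, ?_, ?_, ?_, ?_⟩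
  · intro s g x
    change H s (g • x) = g • H s x
    obtain ⟨c, hc1, hc2⟩ := hd.Ut_smul hFG hn g
    refine hd.u_eq ?_ ?_
    · exact hd.orb_trans (hd.orb_symm (hHo s (g • x))) (hd.smul_orb g (hHo s x))
    · rw [hHe, hc2, hc1, hHe]
  · intro x
    change H 0 x = x
    refine (hd.u_eq (hHo 0 x) ?_).symm
    rw [hHe]
    simp [Ut]
  · intro x
    exact hHo 1 x
  · intro x
    change u (H 1 x) = avg F u n x
    rw [hHe]
    simp [Ut]

/-- The conjugates of a homeomorphism commuting with `G` that preserves every trajectory and has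
sublinear drift accumulate at the identity. -/
theorem Dat.close (hd : Dat G φ u) (hL : LemL φ u) {F : X ≃ₜ X}
    (hFG : ∀ (g : G) (x : X), F (g • x) = g • F x)
    (hFo : ∀ x, Orb φ x (F x))
    (hFm : ∀ x, x ∉ Zer φ → StrictMono (fun t => u (F (φ t x))))
    (hdrift : ∀ δ > 0, ∃ n : ℕ, 0 < n ∧ ∀ x, |u (F^[n] x) - u x| ≤ δ * n) {ε : ℝ} (hε : 0 < ε) :
    ∃ H : unitInterval → (X ≃ₜ X), Continuous (fun p : unitInterval × X => H p.1 p.2) ∧
      (∀ s (g : G) x, H s (g • x) = g • H s x) ∧ (∀ x, H 0 x = x) ∧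
      ∀ x, dist (H 1 (F x)) (H 1 x) ≤ ε := by
  obtain ⟨δ, hδ, hδ2⟩ := hL ε hε
  obtain ⟨n, hn, hdr⟩ := hdrift δ hδ
  obtain ⟨H, hHc, hHG, hH0, hHo, hHe⟩ := hd.conj hL hFG hFo hFm hn
  refine ⟨H, hHc, hHG, hH0, fun x => ?_⟩
  refine hδ2 (H 1 x) (H 1 (F x)) ?_ ?_
  · exact hd.orb_trans (hd.orb_symm (hHo x)) (hd.orb_trans (hFo x) (hHo (F x)))
  · have hn' : (0 : ℝ) < n := by exact_mod_cast hn
    rw [hHe, hHe]
    unfold avg
    have h1 : ∑ k ∈ Finset.range n, u (F^[k] (F x)) - ∑ k ∈ Finset.range n, u (F^[k] x)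
        = u (F^[n] x) - u x := by
      have h2 : ∀ k ∈ Finset.range n, u (F^[k] (F x)) = u (F^[k + 1] x) := fun k _ => by
        rw [Function.iterate_succ_apply]
      rw [Finset.sum_congr rfl h2, ← Finset.sum_sub_distrib]
      exact Finset.sum_range_sub (fun k => u (F^[k] x)) n
    rw [← sub_div, h1, abs_div, abs_of_pos hn', div_le_iff₀ hn']
    exact hdr x

end Pool.Agent.H61.NS
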