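import Mathlib

/-!
# Orbit preserving homeomorphisms of a translation-like flow: the core

Used for MP_b11560_gt.  `X` is a proper metric space with an isometric cocompact action of `G`,
`φ` a flow commuting with `G`, `u : X → ℝ` a function which is strictly increasing along the
nonconstant trajectories and which changes by constants under `G`.
-/

set_option autoImplicit false

open Filter Topology Metric

namespace Pool.Agent.H61.NS

/-- The rest points of a flow. -/
def Zer {X : Type*} (φ : ℝ → X → X) : Set X := {x | ∀ t, φ t x = x}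

/-- `y` lies on the trajectory of `x`. -/
def Orb {X : Type*} (φ : ℝ → X → X) (x y : X) : Prop := ∃ t, y = φ t x

/-- A flow `φ` on `X` that commutes with the action of `G`, with locally finitely many rest points
and at least one, together with a function `u`, equivariant up to additive constants, that is
strictly increasing along all the trajectories other than the rest points. -/
structure Dat (G : Type*) {X : Type*} [MetricSpace X] [Group G] [MulAction G X]
    (φ : ℝ → X → X) (u : X → ℝ) : Prop where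
  cont : Continuous (fun p : ℝ × X => φ p.1 p.2)
  zero : ∀ x, φ 0 x = x
  add : ∀ s t x, φ (s + t) x = φ s (φ t x)
  smul : ∀ (g : G) (t : ℝ) (x : X), φ t (g • x) = g • φ t x
  ucont : Continuous u
  uequi : ∀ g : G, ∃ c : ℝ, ∀ x, u (g • x) = u x + c
  mono : ∀ x, x ∉ Zer φ → StrictMono (fun t => u (φ t x))
  fin : ∀ K : Set X, IsCompact K → (K ∩ Zer φ).Finite
  ne : (Zer φ).Nonempty

/-- Points of the same trajectory with close values of `u` are close. -/
def LemL {X : Type*} [MetricSpace X] (φ : ℝ → X → X) (u : X → ℝ) : Prop :=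
  ∀ ε > 0, ∃ δ > 0, ∀ x y : X, Orb φ x y → |u y - u x| ≤ δ → dist y x ≤ ε

section

variable {G X : Type*} [MetricSpace X] [Group G] [MulAction G X] {φ : ℝ → X → X} {u : X → ℝ}

theorem Dat.orb_refl (hd : Dat G φ u) (x : X) : Orb φ x x := ⟨0, (hd.zero x).symm⟩

theorem Dat.neg_flow (hd : Dat G φ u) (t : ℝ) (x : X) : φ (-t) (φ t x) = x := by
  rw [← hd.add, neg_add_cancel, hd.zero]

theorem Dat.orb_symm (hd : Dat G φ u) {x y : X} (h : Orb φ x y) : Orb φ y x := by
  obtain ⟨t, rfl⟩ := h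
  exact ⟨-t, (hd.neg_flow t x).symm⟩

theorem Dat.orb_trans (hd : Dat G φ u) {x y z : X} (h : Orb φ x y) (h' : Orb φ y z) :
    Orb φ x z := by
  obtain ⟨t, rfl⟩ := h
  obtain ⟨s, rfl⟩ := h'
  exact ⟨s + t, (hd.add s t x).symm⟩

omit [MetricSpace X] in
theorem orb_zer {x y : X} (h : Orb φ x y) (hx : x ∈ Zer φ) : y = x := by
  obtain ⟨t, rfl⟩ := h
  exact hx t

theorem Dat.orb_zer' (hd : Dat G φ u) {x y : X} (h : Orb φ x y) (hy : y ∈ Zer φ) : y = x :=
  (orb_zer (hd.orb_symm h) hy).symm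

theorem Dat.not_zer (hd : Dat G φ u) {x y : X} (h : Orb φ x y) (hx : x ∉ Zer φ) : y ∉ Zer φ := by
  intro hy
  rw [hd.orb_zer' h hy] at hy
  exact hx hy

theorem Dat.u_eq (hd : Dat G φ u) {x y : X} (h : Orb φ x y) (he : u x = u y) : x = y := by
  by_cases hx : x ∈ Zer φ
  · exact (orb_zer h hx).symm
  · obtain ⟨t, rfl⟩ := h
    have h1 : u (φ 0 x) = u (φ t x) := by rw [hd.zero, he]
    have h2 := (hd.mono x hx).injective h1
    rw [← h2, hd.zero]

theorem Dat.smul_zer (hd : Dat G φ u) (g : G) {x : X} (hx : x ∈ Zer φ) : g • x ∈ Zer φ := by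
  intro t
  rw [hd.smul, hx t]

theorem Dat.smul_zer_iff (hd : Dat G φ u) (g : G) {x : X} : g • x ∈ Zer φ ↔ x ∈ Zer φ := by
  refine ⟨fun h => ?_, hd.smul_zer g⟩
  have := hd.smul_zer g⁻¹ h
  rwa [inv_smul_smul] at this

theorem Dat.smul_orb (hd : Dat G φ u) (g : G) {x y : X} (h : Orb φ x y) :
    Orb φ (g • x) (g • y) := by
  obtain ⟨t, rfl⟩ := h
  exact ⟨t, (hd.smul g t x).symm⟩

theorem Dat.cont1 (hd : Dat G φ u) (t : ℝ) : Continuous (φ t) :=
  hd.cont.comp (Continuous.prodMk_right t)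

theorem Dat.cont2 (hd : Dat G φ u) (x : X) : Continuous (fun t => φ t x) :=
  hd.cont.comp (Continuous.prodMk_left x)

/-! ### Uniform discreteness of the rest points -/

theorem Dat.sep (hd : Dat G φ u) [ProperSpace X]
    (hiso : ∀ (g : G) (x y : X), dist (g • x) (g • y) = dist x y)
    {K : Set X} (hK : IsCompact K) (hcov : ∀ x : X, ∃ g : G, g • x ∈ K) :
    ∃ r : ℝ, 0 < r ∧ ∀ z ∈ Zer φ, ∀ w ∈ Zer φ, z ≠ w → r ≤ dist z w := by
  have hK1 : IsCompact (cthickening 1 K) := hK.cthickening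
  have hfin := hd.fin _ hK1
  have hfin2 := hfin.prod hfin
  have hev : ∀ᶠ r : ℝ in 𝓝[>] 0, ∀ p ∈ (cthickening 1 K ∩ Zer φ) ×ˢ (cthickening 1 K ∩ Zer φ),
      p.1 ≠ p.2 → r ≤ dist p.1 p.2 := by
    rw [Filter.eventually_all_finite hfin2]
    intro p _
    by_cases hp : p.1 = p.2
    · exact Filter.Eventually.of_forall fun r h => absurd hp h
    · filter_upwards [Ioo_mem_nhdsGT (dist_pos.2 hp)] with r hr _
      exact hr.2.le
  have hev1 : ∀ᶠ r : ℝ in 𝓝[>] 0, r ≤ 1 := by
    filter_upwards [Ioo_mem_nhdsGT one_pos] with r hr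
    exact hr.2.le
  obtain ⟨r, ⟨hr1, hr2⟩, hr3⟩ := ((hev.and hev1).and self_mem_nhdsWithin).exists
  refine ⟨r, hr3, fun z hz w hw hne => ?_⟩
  by_contra hcon
  push Not at hcon
  obtain ⟨g, hg⟩ := hcov z
  have hz1 : g • z ∈ cthickening 1 K := self_subset_cthickening K hg
  have hw1 : g • w ∈ cthickening 1 K := by
    refine mem_cthickening_of_dist_le (g • w) (g • z) 1 K hg ?_
    rw [hiso, dist_comm]
    linarith
  have := hr1 (g • z, g • w) ⟨⟨hz1, hd.smul_zer g hz⟩, ⟨hw1, hd.smul_zer g hw⟩⟩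
    (fun h => hne (MulAction.injective g h))
  rw [hiso] at this
  linarith

/-- uniform continuity of the flow at time zero -/
theorem Dat.tau (hd : Dat G φ u)
    (hiso : ∀ (g : G) (x y : X), dist (g • x) (g • y) = dist x y)
    {K : Set X} (hK : IsCompact K) (hcov : ∀ x : X, ∃ g : G, g • x ∈ K) {ε : ℝ} (hε : 0 < ε) :
    ∃ τ : ℝ, 0 < τ ∧ ∀ s, |s| ≤ τ → ∀ x, dist (φ s x) x ≤ ε := by
  have h1 : ∀ᶠ s in 𝓝 (0 : ℝ), ∀ x ∈ K, dist (φ s x) x < ε := by
    refine hK.eventually_forall_of_forall_eventually fun x _ => ?_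
    have hc : Continuous (fun p : ℝ × X => dist (φ p.1 p.2) p.2) :=
      hd.cont.dist continuous_snd
    refine hc.continuousAt.eventually_lt continuousAt_const ?_
    simp only [hd.zero, dist_self]
    exact hε
  obtain ⟨τ, hτ, hτ2⟩ := Metric.eventually_nhds_iff.1 h1
  refine ⟨τ / 2, by linarith, fun s hs x => ?_⟩
  obtain ⟨g, hg⟩ := hcov x
  have h2 := hτ2 (y := s) (by rw [Real.dist_eq, sub_zero]; linarith) (g • x) hg
  rw [hd.smul, hiso] at h2
  exact h2.le

/-- uniform increase of `u` off the rest points -/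
theorem Dat.inc (hd : Dat G φ u)
    {K : Set X} (hK : IsCompact K) (hcov : ∀ x : X, ∃ g : G, g • x ∈ K) {Y : Set X}
    (hY : IsClosed Y) (hYG : ∀ (g : G) (x : X), x ∈ Y → g • x ∈ Y) (hYZ : ∀ x ∈ Y, x ∉ Zer φ)
    {τ : ℝ} (hτ : 0 < τ) :
    ∃ δ : ℝ, 0 < δ ∧ ∀ x ∈ Y, δ ≤ u (φ τ x) - u x ∧ δ ≤ u x - u (φ (-τ) x) := by
  have hpos : ∀ x ∈ Y, 0 < min (u (φ τ x) - u x) (u x - u (φ (-τ) x)) := by
    intro x hx
    have h1 := hd.mono x (hYZ x hx) hτ
    have h2 := hd.mono x (hYZ x hx) (neg_lt_zero.2 hτ)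
    simp only [hd.zero] at h1 h2
    exact lt_min (by linarith) (by linarith)
  have hc : Continuous (fun x => min (u (φ τ x) - u x) (u x - u (φ (-τ) x))) :=
    ((hd.ucont.comp (hd.cont1 τ)).sub hd.ucont).min (hd.ucont.sub (hd.ucont.comp (hd.cont1 (-τ))))
  have hinv : ∀ (g : G) (x : X), min (u (φ τ (g • x)) - u (g • x)) (u (g • x) - u (φ (-τ) (g • x)))
      = min (u (φ τ x) - u x) (u x - u (φ (-τ) x)) := by
    intro g x
    obtain ⟨c, hc⟩ := hd.uequi g
    rw [hd.smul, hd.smul, hc, hc, hc]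
    congr 1 <;> ring
  have hKY : IsCompact (K ∩ Y) := hK.inter_right hY
  by_cases hne : (K ∩ Y).Nonempty
  · obtain ⟨a, ha, hamin⟩ := hKY.exists_isMinOn hne hc.continuousOn
    refine ⟨_, hpos a ha.2, fun x hx => ?_⟩
    obtain ⟨g, hg⟩ := hcov x
    have h1 := isMinOn_iff.1 hamin (g • x) ⟨hg, hYG g x hx⟩
    rw [hinv g x] at h1
    exact ⟨h1.trans (min_le_left _ _), h1.trans (min_le_right _ _)⟩
  · refine ⟨1, one_pos, fun x hx => ?_⟩
    obtain ⟨g, hg⟩ := hcov x
    exact absurd ⟨g • x, hg, hYG g x hx⟩ hne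

theorem Dat.lemL (hd : Dat G φ u) [ProperSpace X]
    (hiso : ∀ (g : G) (x y : X), dist (g • x) (g • y) = dist x y)
    {K : Set X} (hK : IsCompact K) (hcov : ∀ x : X, ∃ g : G, g • x ∈ K) : LemL φ u := by
  intro ε hε
  obtain ⟨r₀, hr₀, hsep⟩ := hd.sep hiso hK hcov
  set r : ℝ := min (r₀ / 4) (ε / 4) with hr
  have hrpos : 0 < r := lt_min (by linarith) (by linarith)
  have hr1 : r ≤ r₀ / 4 := min_le_left _ _
  have hr2 : r ≤ ε / 4 := min_le_right _ _
  set Y : Set X := {x | ∀ z ∈ Zer φ, r ≤ dist x z} with hY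
  have hYcl : IsClosed Y := by
    have : Y = ⋂ z ∈ Zer φ, {x | r ≤ dist x z} := by
      ext x
      simp [hY]
    rw [this]
    refine isClosed_biInter fun z _ => ?_
    exact isClosed_le continuous_const (continuous_id.dist continuous_const)
  have hYG : ∀ (g : G) (x : X), x ∈ Y → g • x ∈ Y := by
    intro g x hx z hz
    have h1 := hx (g⁻¹ • z) (hd.smul_zer g⁻¹ hz)
    rw [← hiso g, smul_inv_smul] at h1
    exact h1
  have hYZ : ∀ x ∈ Y, x ∉ Zer φ := by
    intro x hx hz
    have := hx x hz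
    rw [dist_self] at this
    linarith
  obtain ⟨τ, hτ, hτ2⟩ := hd.tau hiso hK hcov (half_pos hε)
  obtain ⟨δ, hδ, hδ2⟩ := hd.inc hK hcov hYcl hYG hYZ hτ
  -- the claim for nonnegative times
  have main : ∀ x : X, ∀ t : ℝ, 0 ≤ t → |u (φ t x) - u x| ≤ δ / 2 → dist (φ t x) x ≤ ε := by
    intro x t ht hu
    by_cases hxZ : x ∈ Zer φ
    · rw [hxZ t, dist_self]
      exact hε.le
    have hum := hd.mono x hxZ
    by_cases hcase : ∃ s ∈ Set.Icc (0 : ℝ) t, φ s x ∈ Y
    · obtain ⟨s, hs, hsY⟩ := hcase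
      obtain ⟨h1, h2⟩ := hδ2 _ hsY
      have hu' := (abs_le.1 hu)
      have e1 : t - s < τ := by
        by_contra hcon
        push Not at hcon
        have h3 : u (φ (τ + s) x) ≤ u (φ t x) := hum.monotone (by linarith)
        have h4 : u (φ 0 x) ≤ u (φ s x) := hum.monotone hs.1
        rw [hd.zero] at h4
        rw [hd.add] at h3
        linarith [hu'.2]
      have e2 : s < τ := by
        by_contra hcon
        push Not at hcon
        have h3 : u (φ 0 x) ≤ u (φ (-τ + s) x) := hum.monotone (by linarith)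
        have h4 : u (φ s x) ≤ u (φ t x) := hum.monotone hs.2
        rw [hd.zero] at h3
        rw [hd.add] at h3
        linarith [hu'.2]
      have d1 : dist (φ t x) (φ s x) ≤ ε / 2 := by
        have := hτ2 (t - s) (by rw [abs_of_nonneg (by linarith [hs.2])]; exact e1.le) (φ s x)
        rwa [← hd.add, sub_add_cancel] at this
      have d2 : dist (φ s x) x ≤ ε / 2 :=
        hτ2 s (by rw [abs_of_nonneg hs.1]; exact e2.le) x
      linarith [dist_triangle (φ t x) (φ s x) x]
    · push Not at hcase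
      have hout : ∀ s ∈ Set.Icc (0 : ℝ) t, ∃ z ∈ Zer φ, dist (φ s x) z < r := by
        intro s hs
        have := hcase s hs
        simp only [hY, Set.mem_ofPred_eq] at this
        push Not at this
        exact this
      obtain ⟨z, hz, hxz⟩ := hout 0 ⟨le_refl _, ht⟩
      rw [hd.zero] at hxz
      set A : Set X := ball z r with hA
      set B : Set X := ⋃ w ∈ Zer φ \ {z}, ball w r with hB
      have hAo : IsOpen A := isOpen_ball
      have hBo : IsOpen B := isOpen_biUnion fun w _ => isOpen_ball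
      have hdisj : Disjoint A B := by
        rw [Set.disjoint_left]
        intro y hyA hyB
        simp only [hB, Set.mem_iUnion] at hyB
        obtain ⟨w, hw, hyw⟩ := hyB
        have h1 := hsep z hz w hw.1 (fun h => hw.2 (by rw [h]; exact Set.mem_singleton _))
        rw [hA, mem_ball] at hyA
        rw [mem_ball] at hyw
        have h2 := dist_triangle_left z w y
        linarith
      have hseg : (fun s => φ s x) '' Set.Icc 0 t ⊆ A ∪ B := by
        rintro y ⟨s, hs, rfl⟩
        obtain ⟨w, hw, hsw⟩ := hout s hs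
        by_cases hwz : w = z
        · left
          rw [hA, mem_ball, ← hwz]
          exact hsw
        · right
          simp only [hB, Set.mem_iUnion]
          exact ⟨w, ⟨hw, hwz⟩, hsw⟩
      have hpre : IsPreconnected ((fun s => φ s x) '' Set.Icc 0 t) :=
        isPreconnected_Icc.image _ (hd.cont2 x).continuousOn
      have hsub := hpre.subset_left_of_subset_union hAo hBo hdisj hseg
        ⟨φ 0 x, ⟨0, ⟨le_refl _, ht⟩, rfl⟩, by rw [hd.zero]; exact hxz⟩
      have h1 : φ t x ∈ A := hsub ⟨t, ⟨ht, le_refl _⟩, rfl⟩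
      rw [hA, mem_ball] at h1
      have h2 := dist_triangle_right (φ t x) x z
      linarith
  refine ⟨δ / 2, by linarith, fun x y hxy hu => ?_⟩
  obtain ⟨t, rfl⟩ := hxy
  rcases le_total 0 t with ht | ht
  · exact main x t ht hu
  · have h1 := main (φ t x) (-t) (by linarith)
    rw [hd.neg_flow, abs_sub_comm] at h1
    rw [dist_comm]
    exact h1 hu

end

end Pool.Agent.H61.NS
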