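import Pool.Agent.H61.NS.Core

/-!
# Coarse Lipschitz estimate in the hyperbolic plane, and the drift of a non-spreading map

Used for MP_b11560_gt.
-/

set_option autoImplicit false

open Filter Topology Metric UpperHalfPlane

namespace Pool.Agent.H61.NS

/-- chains on the line -/
theorem line_chain {v : ℝ → ℝ} {C : ℝ} (hC : ∀ s t, |s - t| ≤ 1 → |v s - v t| ≤ C) (s t : ℝ) :
    |v s - v t| ≤ C * (1 + |s - t|) := by
  have hC0 : 0 ≤ C := (abs_nonneg _).trans (hC 0 0 (by simp))
  have key : ∀ n : ℕ, ∀ s t : ℝ, |s - t| ≤ (n : ℝ) → |v s - v t| ≤ C * (n : ℝ) := by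
    intro n
    induction n with
    | zero =>
      intro s t h
      have h1 : s = t := by
        have h2 : |s - t| ≤ 0 := by simpa using h
        have := abs_nonpos_iff.1 h2
        linarith
      rw [h1]
      simp
    | succ n ih =>
      intro s t h
      have hn : (0 : ℝ) < (n : ℝ) + 1 := by positivity
      have hst : |t - s| ≤ (n : ℝ) + 1 := by
        rw [abs_sub_comm]
        simpa using h
      set m : ℝ := s + (t - s) / (n + 1) with hm
      have h1 : |s - m| ≤ 1 := by
        rw [show s - m = -((t - s) / (n + 1)) by rw [hm]; ring, abs_neg, abs_div,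
          abs_of_pos hn, div_le_one hn]
        exact hst
      have h2 : |m - t| ≤ n := by
        rw [show m - t = -((t - s) * (n / (n + 1))) by rw [hm]; field_simp; ring, abs_neg, abs_mul,
          abs_of_nonneg (show (0 : ℝ) ≤ n / (n + 1) by positivity)]
        calc |t - s| * (n / (n + 1)) ≤ (n + 1) * (n / (n + 1)) :=
              mul_le_mul_of_nonneg_right hst (by positivity)
          _ = n := by field_simp
      have h3 := hC s m h1
      have h4 := ih m t h2
      have h5 := abs_sub_le (v s) (v m) (v t)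
      push_cast
      linarith
  have h1 := key ⌈|s - t|⌉₊ s t (Nat.le_ceil _)
  have h2 : (⌈|s - t|⌉₊ : ℝ) ≤ 1 + |s - t| := by
    have := Nat.ceil_lt_add_one (abs_nonneg (s - t))
    linarith
  exact h1.trans (mul_le_mul_of_nonneg_left h2 hC0)

/-- the point of real part `a` and imaginary part `exp y` -/
noncomputable def pt (a y : ℝ) : ℍ := ⟨⟨a, Real.exp y⟩, Real.exp_pos y⟩

theorem pt_self (z : ℍ) : pt z.re (Real.log z.im) = z :=
  UpperHalfPlane.ext_re_im rfl (Real.exp_log z.im_pos)

theorem coarse {u : ℍ → ℝ} {C : ℝ} (hC : ∀ z w, dist z w ≤ 1 → |u z - u w| ≤ C) (z w : ℍ) :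
    |u z - u w| ≤ C * (3 + 2 * dist z w) := by
  have hC0 : 0 ≤ C := (abs_nonneg _).trans (hC z z (by simp))
  have hline : ∀ a s t, |u (pt a s) - u (pt a t)| ≤ C * (1 + |s - t|) := by
    intro a s t
    refine line_chain (v := fun s => u (pt a s)) (fun s t hst => hC _ _ ?_) s t
    have := (UpperHalfPlane.isometry_vertical_line a).dist_eq s t
    have h2 : dist (pt a s) (pt a t) = dist s t := this
    rw [h2, Real.dist_eq]
    exact hst
  set h : ℝ := max (max z.im w.im) |z.re - w.re| with hh
  have hzp := z.im_pos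
  have hwp := w.im_pos
  have hz : z.im ≤ h := (le_max_left _ _).trans (le_max_left _ _)
  have hw : w.im ≤ h := (le_max_right _ _).trans (le_max_left _ _)
  have hx : |z.re - w.re| ≤ h := le_max_right _ _
  have hpos : 0 < h := hzp.trans_le hz
  have hre : |z.re - w.re| ≤ dist (z : ℂ) w := by
    rw [Complex.dist_eq]
    have := Complex.abs_re_le_norm ((z : ℂ) - w)
    simpa using this
  have hez : h ≤ z.im * Real.exp (dist z w) := by
    refine max_le (max_le ?_ ?_) ?_
    · exact le_mul_of_one_le_right hzp.le (Real.one_le_exp dist_nonneg)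
    · rw [dist_comm]
      exact UpperHalfPlane.im_le_im_mul_exp_dist w z
    · have h1 := UpperHalfPlane.dist_coe_le w z
      rw [dist_comm, dist_comm w z] at h1
      nlinarith
  have hew : h ≤ w.im * Real.exp (dist z w) := by
    refine max_le (max_le ?_ ?_) ?_
    · exact UpperHalfPlane.im_le_im_mul_exp_dist z w
    · exact le_mul_of_one_le_right hwp.le (Real.one_le_exp dist_nonneg)
    · have h1 := UpperHalfPlane.dist_coe_le z w
      nlinarith
  have hlz : |Real.log z.im - Real.log h| ≤ dist z w := by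
    rw [abs_sub_comm, abs_of_nonneg (sub_nonneg.2 (Real.log_le_log hzp hz))]
    have := Real.log_le_log hpos hez
    rw [Real.log_mul hzp.ne' (Real.exp_pos _).ne', Real.log_exp] at this
    linarith
  have hlw : |Real.log h - Real.log w.im| ≤ dist z w := by
    rw [abs_of_nonneg (sub_nonneg.2 (Real.log_le_log hwp hw))]
    have := Real.log_le_log hpos hew
    rw [Real.log_mul hwp.ne' (Real.exp_pos _).ne', Real.log_exp] at this
    linarith
  have h1 := hline z.re (Real.log z.im) (Real.log h)
  have h3 := hline w.re (Real.log h) (Real.log w.im)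
  rw [pt_self] at h1 h3
  have h2 : |u (pt z.re (Real.log h)) - u (pt w.re (Real.log h))| ≤ C := by
    refine hC _ _ ((UpperHalfPlane.dist_le_dist_coe_div_sqrt _ _).trans ?_)
    have e1 : (pt z.re (Real.log h)).im = h := Real.exp_log hpos
    have e2 : (pt w.re (Real.log h)).im = h := Real.exp_log hpos
    have e3 : dist ((pt z.re (Real.log h) : ℍ) : ℂ) (pt w.re (Real.log h)) = |z.re - w.re| := by
      rw [Complex.dist_of_im_eq (by simp [pt]), Real.dist_eq]
      simp [pt]
    rw [e1, e2, e3, Real.sqrt_mul_self hpos.le, div_le_one hpos]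
    exact hx
  have h4 := abs_sub_le (u z) (u (pt z.re (Real.log h))) (u w)
  have h5 := abs_sub_le (u (pt z.re (Real.log h))) (u (pt w.re (Real.log h))) (u w)
  have h6 : C * |Real.log z.im - Real.log h| ≤ C * dist z w := mul_le_mul_of_nonneg_left hlz hC0
  have h7 : C * |Real.log h - Real.log w.im| ≤ C * dist z w := mul_le_mul_of_nonneg_left hlw hC0
  nlinarith

section

variable {G X : Type*} [MetricSpace X] [Group G] [MulAction G X] {φ : ℝ → X → X} {u : X → ℝ}

theorem Dat.unif (hd : Dat G φ u) [ProperSpace X]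
    (hiso : ∀ (g : G) (x y : X), dist (g • x) (g • y) = dist x y)
    {K : Set X} (hK : IsCompact K) (hcov : ∀ x : X, ∃ g : G, g • x ∈ K) :
    ∃ C : ℝ, ∀ x y, dist x y ≤ 1 → |u x - u y| ≤ C := by
  have hK1 : IsCompact (cthickening 1 K) := hK.cthickening
  obtain ⟨M, hM⟩ := hK1.exists_bound_of_continuousOn (f := u) hd.ucont.continuousOn
  refine ⟨2 * M, fun x y hxy => ?_⟩
  obtain ⟨g, hg⟩ := hcov x
  obtain ⟨c, hc⟩ := hd.uequi g
  have hx1 : g • x ∈ cthickening 1 K := self_subset_cthickening K hg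
  have hy1 : g • y ∈ cthickening 1 K := by
    refine mem_cthickening_of_dist_le (g • y) (g • x) 1 K hg ?_
    rw [hiso, dist_comm]
    exact hxy
  have h1 := hM _ hx1
  have h2 := hM _ hy1
  rw [Real.norm_eq_abs] at h1 h2
  have h3 := abs_sub (u (g • x)) (u (g • y))
  rw [hc x, hc y] at h3
  rw [hc x] at h1
  rw [hc y] at h2
  rw [show u x - u y = u x + c - (u y + c) by ring]
  linarith

/-- sublinear drift of a non-spreading map that fixes the rest points -/
theorem Dat.drift (hd : Dat G φ u) {A B : ℝ} (hB : 0 ≤ B)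
    (hco : ∀ x y, |u x - u y| ≤ A + B * dist x y)
    {F : X → X} (hFc : Continuous F)
    (hFG : ∀ (g : G) (x : X), F (g • x) = g • F x)
    (hFo : ∀ x, Orb φ x (F x)) {D : Set X} (hD : IsCompact D)
    (hcov : ∀ x : X, ∃ g : G, g • x ∈ D)
    (hns : Tendsto (fun n : ℕ => diam (F^[n] '' D) / (n : ℝ)) atTop (𝓝 0)) :
    ∀ δ > 0, ∃ n : ℕ, 0 < n ∧ ∀ x, |u (F^[n] x) - u x| ≤ δ * n := by
  intro δ hδ
  obtain ⟨z₀, hz₀⟩ := hd.ne
  obtain ⟨g₀, hg₀⟩ := hcov z₀
  set z := g₀ • z₀ with hz
  have hzZ : z ∈ Zer φ := hd.smul_zer g₀ hz₀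
  have hFz : ∀ n : ℕ, F^[n] z = z := by
    intro n
    have h1 : F z = z := orb_zer (hFo z) hzZ
    exact Function.iterate_fixed h1 n
  have hiter : ∀ (k : ℕ) (g : G) (x : X), F^[k] (g • x) = g • F^[k] x := by
    intro k g x
    induction k with
    | zero => rfl
    | succ k ih => rw [Function.iterate_succ_apply', Function.iterate_succ_apply', ih, hFG]
  have hmain : ∀ n : ℕ, ∀ x, |u (F^[n] x) - u x| ≤
      (2 * A + B * diam D) + B * diam (F^[n] '' D) := by
    intro n x
    obtain ⟨g, hg⟩ := hcov x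
    obtain ⟨c, hc⟩ := hd.uequi g
    have h1 : |u (F^[n] (g • x)) - u (g • x)| = |u (F^[n] x) - u x| := by
      rw [hiter, hc, hc]
      congr 1
      ring
    rw [← h1]
    have hcomp : IsCompact (F^[n] '' D) := hD.image (hFc.iterate n)
    have h2 : dist (F^[n] (g • x)) (F^[n] z) ≤ diam (F^[n] '' D) :=
      dist_le_diam_of_mem hcomp.isBounded ⟨_, hg, rfl⟩ ⟨_, hg₀, rfl⟩
    have h3 : dist z (g • x) ≤ diam D := dist_le_diam_of_mem hD.isBounded hg₀ hg
    rw [hFz] at h2
    have h4 := hco (F^[n] (g • x)) z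
    have h5 := hco z (g • x)
    have h6 := abs_sub_le (u (F^[n] (g • x))) (u z) (u (g • x))
    have h7 := mul_le_mul_of_nonneg_left h2 hB
    have h8 := mul_le_mul_of_nonneg_left h3 hB
    linarith
  have hlim : Tendsto (fun n : ℕ => (2 * A + B * diam D) / (n : ℝ) +
      B * (diam (F^[n] '' D) / (n : ℝ))) atTop (𝓝 0) := by
    have h1 : Tendsto (fun n : ℕ => (2 * A + B * diam D) / (n : ℝ)) atTop (𝓝 0) :=
      tendsto_const_div_atTop_nhds_zero_nat _
    have h2 := h1.add (hns.const_mul B)
    simpa using h2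
  obtain ⟨n, hn1, hn2⟩ := ((hlim.eventually_lt_const hδ).and (eventually_gt_atTop 0)).exists
  refine ⟨n, hn2, fun x => (hmain n x).trans ?_⟩
  have hn' : (0 : ℝ) < n := by exact_mod_cast hn2
  have h1 : (2 * A + B * diam D) / (n : ℝ) + B * (diam (F^[n] '' D) / (n : ℝ))
      = ((2 * A + B * diam D) + B * diam (F^[n] '' D)) / n := by ring
  rw [h1, div_lt_iff₀ hn'] at hn1
  exact hn1.le

end

end Pool.Agent.H61.NS
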