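import Pool.Agent.H61.NS.Core

/-!
# Orbit preserving homeomorphisms preserve the order of the trajectories, and the solver

Used for MP_b11560_gt.
-/

set_option autoImplicit false

open Filter Topology Metric

namespace Pool.Agent.H61.NS

variable {G X : Type*} [MetricSpace X] [Group G] [MulAction G X] {φ : ℝ → X → X} {u : X → ℝ}

/-- A homeomorphism commuting with `G` that maps every trajectory to itself is strictly increasing
on the trajectories. -/
theorem Dat.mon (hd : Dat G φ u) (hL : LemL φ u) [CompleteSpace X]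
    {K : Set X} (hK : IsCompact K) (hcov : ∀ x : X, ∃ g : G, g • x ∈ K)
    {F : X → X} (hFc : Continuous F) (hFi : Function.Injective F)
    (hFG : ∀ (g : G) (x : X), F (g • x) = g • F x)
    (hFo : ∀ x, Orb φ x (F x)) (x : X) (hx : x ∉ Zer φ) : StrictMono (fun t => u (F (φ t x))) := by
  have hum := hd.mono x hx
  have hc : Continuous (fun t => u (F (φ t x))) := hd.ucont.comp (hFc.comp (hd.cont2 x))
  have horb : ∀ t, Orb φ x (F (φ t x)) := fun t =>
    hd.orb_trans ⟨t, rfl⟩ (hFo (φ t x))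
  have hinj : Function.Injective (fun t => u (F (φ t x))) := by
    intro s t hst
    have h1 : F (φ s x) = F (φ t x) :=
      hd.u_eq (hd.orb_trans (hd.orb_symm (horb s)) (horb t)) hst
    exact hum.injective (congrArg u (hFi h1))
  rcases hc.strictMono_of_inj hinj with h | h
  · exact h
  exfalso
  obtain ⟨M, hM⟩ : ∃ M : ℝ, ∀ y, |u (F y) - u y| ≤ M := by
    obtain ⟨M, hM⟩ := hK.exists_bound_of_continuousOn
      (f := fun y => u (F y) - u y) ((hd.ucont.comp hFc).sub hd.ucont).continuousOn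
    refine ⟨M, fun y => ?_⟩
    obtain ⟨g, hg⟩ := hcov y
    obtain ⟨c, hc⟩ := hd.uequi g
    have h1 := hM (g • y) hg
    rw [hFG, hc, hc, Real.norm_eq_abs] at h1
    rwa [show u (F y) + c - (u y + c) = u (F y) - u y by ring] at h1
  have hbdd : ∀ t, u (φ t x) ≤ u (F (φ 0 x)) + M := by
    have h0 : ∀ t, 0 ≤ t → u (φ t x) ≤ u (F (φ 0 x)) + M := by
      intro t ht
      have h1 : u (F (φ t x)) ≤ u (F (φ 0 x)) := h.antitone ht
      have h2 := (abs_le.1 (hM (φ t x))).1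
      linarith
    intro t
    rcases le_total 0 t with ht | ht
    · exact h0 t ht
    · exact (hum.monotone ht).trans (h0 0 le_rfl)
  have htend := tendsto_atTop_ciSup hum.monotone ⟨_, by rintro y ⟨t, rfl⟩; exact hbdd t⟩
  set b := ⨆ t, u (φ t x) with hb
  have hle : ∀ t, u (φ t x) ≤ b := fun t => hum.monotone.ge_of_tendsto htend t
  have hcau : CauchySeq (fun t => φ t x) := by
    rw [Metric.cauchySeq_iff']
    intro ε hε
    obtain ⟨δ, hδ, hδ2⟩ := hL (ε / 2) (half_pos hε)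
    obtain ⟨N, hN⟩ := (htend.eventually_const_lt (show b - δ < b by linarith)).exists
    refine ⟨N, fun t ht => ?_⟩
    have h1 : u (φ N x) ≤ u (φ t x) := hum.monotone ht
    have h2 := hle t
    have h3 := hδ2 (φ N x) (φ t x) (hd.orb_trans (hd.orb_symm ⟨N, rfl⟩) ⟨t, rfl⟩)
      (by rw [abs_of_nonneg (by linarith)]; linarith)
    linarith
  obtain ⟨z, hz⟩ := cauchySeq_tendsto_of_complete hcau
  have hzZ : z ∈ Zer φ := by
    intro s
    have h1 : Tendsto (fun t => φ s (φ t x)) atTop (𝓝 (φ s z)) :=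
      ((hd.cont1 s).tendsto z).comp hz
    have h2 : Tendsto (fun t => φ (s + t) x) atTop (𝓝 z) :=
      hz.comp (tendsto_atTop_add_const_left atTop s tendsto_id)
    have h3 : (fun t => φ s (φ t x)) = (fun t => φ (s + t) x) := by
      funext t
      rw [hd.add]
    rw [h3] at h1
    exact tendsto_nhds_unique h1 h2
  have hFz : F z = z := orb_zer (hFo z) hzZ
  have hg : Tendsto (fun t => u (F (φ t x))) atTop (𝓝 (u z)) := by
    have h1 := ((hd.ucont.comp hFc).tendsto z).comp hz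
    have h2 : (u ∘ F) z = u z := by
      rw [Function.comp_apply, hFz]
    rw [h2] at h1
    exact h1
  have hu : Tendsto (fun t => u (φ t x)) atTop (𝓝 (u z)) := (hd.ucont.tendsto z).comp hz
  have h1 : u z ≤ u (F (φ 0 x)) := h.antitone.le_of_tendsto hg 0
  obtain ⟨s, hs⟩ := hFo (φ 0 x)
  rw [hs, ← hd.add] at h1
  have h2 : u (φ (s + 0) x) < u (φ (s + 0 + 1) x) := hum (by linarith)
  have h3 : u (φ (s + 0 + 1) x) ≤ u z := hum.monotone.ge_of_tendsto hu _
  linarith

omit [MetricSpace X] in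
/-- order on a trajectory -/
theorem ord {Q : X → ℝ} {x : X} (hm : StrictMono (fun t => u (φ t x)))
    (hQ : StrictMono (fun t => Q (φ t x))) {y w : X} (hy : Orb φ x y) (hw : Orb φ x w)
    (h : Q y ≤ Q w) : u y ≤ u w := by
  obtain ⟨s, rfl⟩ := hy
  obtain ⟨t, rfl⟩ := hw
  have : s ≤ t := by
    by_contra hcon
    push Not at hcon
    exact absurd (hQ hcon) (not_lt.2 h)
  exact hm.monotone this

/-- The solver: the equation `P θ y = Q θ x`, `y` on the trajectory of `x`. -/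
theorem Dat.solve (hd : Dat G φ u) (hL : LemL φ u) {Θ : Type*} [TopologicalSpace Θ]
    {P Q : Θ → X → ℝ} (hP : Continuous (fun p : Θ × X => P p.1 p.2))
    (hQ : Continuous (fun p : Θ × X => Q p.1 p.2))
    (hPm : ∀ θ x, x ∉ Zer φ → StrictMono (fun t => P θ (φ t x)))
    {m : ℕ} {b : Fin m → X → X} (hb : ∀ i, Continuous (b i)) (hbo : ∀ i x, Orb φ x (b i x))
    (hlo : ∀ θ x, ∃ i, P θ (b i x) ≤ Q θ x) (hhi : ∀ θ x, ∃ i, Q θ x ≤ P θ (b i x)) :
    ∃ H : Θ → X → X, Continuous (fun p : Θ × X => H p.1 p.2) ∧ (∀ θ x, Orb φ x (H θ x)) ∧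
      ∀ θ x, P θ (H θ x) = Q θ x := by
  have hex : ∀ θ x, ∃ y, Orb φ x y ∧ P θ y = Q θ x := by
    intro θ x
    obtain ⟨i, hi⟩ := hlo θ x
    obtain ⟨j, hj⟩ := hhi θ x
    obtain ⟨s, hs⟩ := hbo i x
    obtain ⟨t, ht⟩ := hbo j x
    have hcont : Continuous (fun r => P θ (φ r x)) :=
      hP.comp (Continuous.prodMk continuous_const (hd.cont2 x))
    rw [hs] at hi
    rw [ht] at hj
    obtain ⟨r, hr⟩ := mem_range_of_exists_le_of_exists_ge hcont ⟨s, hi⟩ ⟨t, hj⟩
    exact ⟨φ r x, ⟨r, rfl⟩, hr⟩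
  choose H hHo hHe using hex
  refine ⟨H, ?_, hHo, hHe⟩
  rw [continuous_iff_continuousAt]
  rintro ⟨θ₀, x₀⟩
  by_cases hx₀ : x₀ ∈ Zer φ
  · -- at a rest point
    have hH0 : H θ₀ x₀ = x₀ := orb_zer (hHo θ₀ x₀) hx₀
    rw [ContinuousAt, Metric.tendsto_nhds]
    intro ε hε
    simp only [hH0]
    obtain ⟨δ, hδ, hδ2⟩ := hL (ε / 2) (half_pos hε)
    have hbz : ∀ i, b i x₀ = x₀ := fun i => orb_zer (hbo i x₀) hx₀
    have e1 : ∀ᶠ x in 𝓝 x₀, ∀ i, dist (b i x) x₀ < ε / 2 := by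
      rw [Filter.eventually_all]
      intro i
      have h1 := (hb i).continuousAt (x := x₀)
      rw [ContinuousAt, Metric.tendsto_nhds, hbz i] at h1
      exact h1 _ (half_pos hε)
    have e2 : ∀ᶠ x in 𝓝 x₀, ∀ i, |u (b i x) - u x₀| < δ / 2 := by
      rw [Filter.eventually_all]
      intro i
      have h1 := (hd.ucont.comp (hb i)).continuousAt (x := x₀)
      rw [ContinuousAt, Metric.tendsto_nhds] at h1
      have h2 := h1 _ (half_pos hδ)
      simp only [Function.comp_apply, hbz i, Real.dist_eq] at h2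
      exact h2
    have e3 : ∀ᶠ p : Θ × X in 𝓝 (θ₀, x₀), (∀ i, dist (b i p.2) x₀ < ε / 2) ∧
        ∀ i, |u (b i p.2) - u x₀| < δ / 2 :=
      (continuous_snd.tendsto (θ₀, x₀)).eventually (e1.and e2)
    filter_upwards [e3] with p hp
    obtain ⟨θ, x⟩ := p
    obtain ⟨hp1, hp2⟩ := hp
    simp only at hp1 hp2 ⊢
    obtain ⟨i, hi⟩ := hlo θ x
    obtain ⟨j, hj⟩ := hhi θ x
    by_cases hx : x ∈ Zer φ
    · have h1 : H θ x = b i x := by rw [orb_zer (hHo θ x) hx, orb_zer (hbo i x) hx]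
      rw [h1]
      have := hp1 i
      linarith
    have h1 : u (b i x) ≤ u (H θ x) :=
      ord (hd.mono x hx) (hPm θ x hx) (hbo i x) (hHo θ x) (by rw [hHe]; exact hi)
    have h2 : u (H θ x) ≤ u (b j x) :=
      ord (hd.mono x hx) (hPm θ x hx) (hHo θ x) (hbo j x) (by rw [hHe]; exact hj)
    have h3 := abs_lt.1 (hp2 i)
    have h4 := abs_lt.1 (hp2 j)
    have h5 := hδ2 (b i x) (H θ x) (hd.orb_trans (hd.orb_symm (hbo i x)) (hHo θ x))
      (by rw [abs_of_nonneg (by linarith)]; linarith)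
    have h6 := hp1 i
    have h7 := dist_triangle (H θ x) (b i x) x₀
    linarith
  · -- away from the rest points
    obtain ⟨t₀, ht₀⟩ := hHo θ₀ x₀
    have hZc : IsClosed (Zer φ) := by
      have : Zer φ = ⋂ t : ℝ, {x | φ t x = x} := by
        ext x
        simp [Zer]
      rw [this]
      exact isClosed_iInter fun t => isClosed_eq (hd.cont1 t) continuous_id
    have hcw : Continuous (fun q : ℝ × X => φ q.1 q.2) := hd.cont
    rw [ContinuousAt, ht₀]
    rw [tendsto_def]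
    intro s hs
    -- a product neighbourhood
    have h1 : ∀ᶠ q : ℝ × X in 𝓝 (t₀, x₀), φ q.1 q.2 ∈ s := hcw.continuousAt.eventually hs
    rw [nhds_prod_eq, Filter.eventually_prod_iff] at h1
    obtain ⟨pa, hpa, pb, hpb, hpab⟩ := h1
    obtain ⟨η, hη, hη2⟩ := Metric.eventually_nhds_iff.1 hpa
    have hm := hPm θ₀ x₀ hx₀
    have hlo' : P θ₀ (φ (t₀ - η / 2) x₀) < Q θ₀ x₀ := by
      rw [← hHe θ₀ x₀, ht₀]
      exact hm (by linarith)
    have hhi' : Q θ₀ x₀ < P θ₀ (φ (t₀ + η / 2) x₀) := by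
      rw [← hHe θ₀ x₀, ht₀]
      exact hm (by linarith)
    have cP : ∀ t : ℝ, Continuous (fun p : Θ × X => P p.1 (φ t p.2)) := fun t =>
      hP.comp (Continuous.prodMk continuous_fst ((hd.cont1 t).comp continuous_snd))
    have e1 : ∀ᶠ p : Θ × X in 𝓝 (θ₀, x₀), P p.1 (φ (t₀ - η / 2) p.2) < Q p.1 p.2 :=
      (cP _).continuousAt.eventually_lt hQ.continuousAt hlo'
    have e2 : ∀ᶠ p : Θ × X in 𝓝 (θ₀, x₀), Q p.1 p.2 < P p.1 (φ (t₀ + η / 2) p.2) :=
      hQ.continuousAt.eventually_lt (cP _).continuousAt hhi'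
    have e3 : ∀ᶠ p : Θ × X in 𝓝 (θ₀, x₀), pb p.2 :=
      (continuous_snd.tendsto (θ₀, x₀)).eventually hpb
    have e4 : ∀ᶠ p : Θ × X in 𝓝 (θ₀, x₀), p.2 ∉ Zer φ :=
      (continuous_snd.tendsto (θ₀, x₀)).eventually (hZc.isOpen_compl.mem_nhds hx₀)
    filter_upwards [e1, e2, e3, e4] with p hp1 hp2 hp3 hp4
    obtain ⟨θ, x⟩ := p
    simp only at hp1 hp2 hp3 hp4
    obtain ⟨t, ht⟩ := hHo θ x
    have hm' := hPm θ x hp4
    have k1 : t₀ - η / 2 < t := by
      rw [← hHe θ x, ht] at hp1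
      exact hm'.lt_iff_lt.1 hp1
    have k2 : t < t₀ + η / 2 := by
      rw [← hHe θ x, ht] at hp2
      exact hm'.lt_iff_lt.1 hp2
    have k3 : pa t := hη2 (by rw [Real.dist_eq, abs_lt]; constructor <;> linarith)
    have k4 := hpab k3 hp3
    rw [Set.mem_preimage, ht]
    exact k4

end Pool.Agent.H61.NS
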