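import Mathlib

/-!
# Passing to the quotient by a properly discontinuous cocompact action

Used for MP_b11560_gt.
-/

set_option autoImplicit false

open Filter Topology Metric

namespace Pool.Agent.H61.NS

section top

variable {G X : Type*} [TopologicalSpace X] [Group G] [MulAction G X]

/-- the homeomorphism of the quotient induced by an equivariant homeomorphism -/
def desc (Φ : X ≃ₜ X) (h : ∀ (g : G) (x : X), Φ (g • x) = g • Φ x) :
    Quotient (MulAction.orbitRel G X) ≃ₜ Quotient (MulAction.orbitRel G X) where
  toFun := Quotient.map' Φ (fun a b hab => by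
    obtain ⟨g, hg⟩ := hab
    exact ⟨g, by rw [← hg]; exact (h g b).symm⟩)
  invFun := Quotient.map' Φ.symm (fun a b hab => by
    obtain ⟨g, hg⟩ := hab
    refine ⟨g, ?_⟩
    apply Φ.injective
    change Φ (g • Φ.symm b) = Φ (Φ.symm a)
    rw [h, Φ.apply_symm_apply, Φ.apply_symm_apply]
    exact hg)
  left_inv := by
    intro x
    induction x using Quotient.inductionOn with
    | _ x =>
      change Quotient.mk _ (Φ.symm (Φ x)) = Quotient.mk _ x
      rw [Φ.symm_apply_apply]
  right_inv := by
    intro x
    induction x using Quotient.inductionOn with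
    | _ x =>
      change Quotient.mk _ (Φ (Φ.symm x)) = Quotient.mk _ x
      rw [Φ.apply_symm_apply]
  continuous_toFun := Φ.continuous.quotient_map' _
  continuous_invFun := Φ.symm.continuous.quotient_map' _

theorem desc_mk (Φ : X ≃ₜ X) (h : ∀ (g : G) (x : X), Φ (g • x) = g • Φ x) (x : X) :
    desc Φ h (Quotient.mk _ x) = Quotient.mk (MulAction.orbitRel G X) (Φ x) := rfl

theorem desc_cont [ContinuousConstSMul G X] {I : Type*} [TopologicalSpace I]
    (H : I → (X ≃ₜ X)) (hH : Continuous (fun p : I × X => H p.1 p.2))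
    (h : ∀ (s : I) (g : G) (x : X), H s (g • x) = g • H s x) :
    Continuous (fun p : I × Quotient (MulAction.orbitRel G X) => desc (H p.1) (h p.1) p.2) := by
  have hopen : IsOpenMap (Quotient.mk (MulAction.orbitRel G X)) :=
    isOpenMap_quotient_mk'_mul
  have hq : IsQuotientMap (Prod.map (id : I → I) (Quotient.mk (MulAction.orbitRel G X))) :=
    (IsOpenMap.id.prodMap hopen).isQuotientMap
      (continuous_id.prodMap continuous_quotient_mk')
      (Function.surjective_id.prodMap Quotient.mk_surjective)
  rw [hq.continuous_iff]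
  exact continuous_quotient_mk'.comp hH

end top

section met

variable {G X : Type*} [MetricSpace X] [ProperSpace X] [Group G] [MulAction G X]

/-- If the lifts `Ψ n` of the self-maps `k n` of the quotient converge uniformly to the identity
then `k n` converges to the identity in the compact-open topology. -/
theorem tendsto_quot [ContinuousConstSMul G X] [ProperlyDiscontinuousSMul G X]
    {K : Set X} (hK : IsCompact K) (hcov : ∀ x : X, ∃ g : G, g • x ∈ K)
    (k : ℕ → C(Quotient (MulAction.orbitRel G X), Quotient (MulAction.orbitRel G X)))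
    (Ψ : ℕ → X → X)
    (hk : ∀ n x, k n (Quotient.mk _ x) = Quotient.mk (MulAction.orbitRel G X) (Ψ n x))
    (ε : ℕ → ℝ) (hε : Tendsto ε atTop (𝓝 0)) (hΨ : ∀ n x, dist (Ψ n x) x ≤ ε n) :
    Tendsto k atTop (𝓝 (ContinuousMap.id _)) := by
  have hT2 : T2Space (Quotient (MulAction.orbitRel G X)) :=
    t2Space_of_properlyDiscontinuousSMul_of_t2Space
  rw [ContinuousMap.tendsto_nhds_compactOpen]
  intro C hC U hU hCU
  have hmkc : Continuous (Quotient.mk (MulAction.orbitRel G X)) := continuous_quotient_mk'
  have hC' : IsCompact (K ∩ (Quotient.mk (MulAction.orbitRel G X)) ⁻¹' C) :=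
    hK.inter_right (hC.isClosed.preimage hmkc)
  have hU' : IsOpen ((Quotient.mk (MulAction.orbitRel G X)) ⁻¹' U) := hU.preimage hmkc
  have hsub : K ∩ (Quotient.mk (MulAction.orbitRel G X)) ⁻¹' C ⊆
      (Quotient.mk (MulAction.orbitRel G X)) ⁻¹' U := by
    intro x hx
    exact hCU hx.2
  obtain ⟨δ, hδ, hδ2⟩ := hC'.exists_thickening_subset_open hU' hsub
  filter_upwards [hε.eventually_lt_const hδ] with n hn
  intro x hx
  induction x using Quotient.inductionOn with
  | _ x =>
    obtain ⟨g, hg⟩ := hcov x
    have hgx : (Quotient.mk (MulAction.orbitRel G X) x) =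
        Quotient.mk (MulAction.orbitRel G X) (g • x) := by
      refine (Quotient.sound ?_).symm
      exact ⟨g, rfl⟩
    rw [hgx] at hx ⊢
    rw [hk]
    have h1 : Ψ n (g • x) ∈ thickening δ (K ∩ (Quotient.mk (MulAction.orbitRel G X)) ⁻¹' C) := by
      rw [mem_thickening_iff]
      exact ⟨g • x, ⟨hg, hx⟩, (hΨ n _).trans_lt hn⟩
    exact hδ2 h1

end met

end Pool.Agent.H61.NS
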